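import Pool.Agent.Lib.MP_28303a_al.NT.ER.Defs

/-! # Row ZS: extension by zero -/

set_option autoImplicit false
set_option linter.unusedSectionVars false
set_option linter.unusedVariables false

namespace Pool.Agent.NegK.NT.ER

universe u

open CategoryTheory Limits Opposite
open Pool.Agent.NegK.TW

namespace Zs98

/-- Exactness is tested on values. -/
theorem exact_of_val {k : Type u} [Ring k] {C : Type u} [Category.{u} C]
    (S : ShortComplex (Cᵒᵖ ⥤ ModuleCat.{u} k))
    (h : ∀ U x, (S.g.app U).hom x = 0 → ∃ y, (S.f.app U).hom y = x) : S.Exact := by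
  rw [ShortComplex.exact_iff_isZero_homology]
  refine Functor.isZero _ fun U => ?_
  have h1 : (S.map ((evaluation Cᵒᵖ (ModuleCat.{u} k)).obj U)).Exact := by
    rw [ShortComplex.moduleCat_exact_iff]
    intro x hx
    exact h U x hx
  have h2 := (ShortComplex.exact_iff_isZero_homology _).1 h1
  exact h2.of_iso (S.mapHomologyIso ((evaluation Cᵒᵖ (ModuleCat.{u} k)).obj U)).symm

/-- Short exactness is tested on values. -/
theorem se_of_val {k : Type u} [Ring k] {C : Type u} [Category.{u} C]
    (S : ShortComplex (Cᵒᵖ ⥤ ModuleCat.{u} k))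
    (h1 : ∀ U, Function.Injective (S.f.app U).hom)
    (h : ∀ U x, (S.g.app U).hom x = 0 → ∃ y, (S.f.app U).hom y = x)
    (h3 : ∀ U, Function.Surjective (S.g.app U).hom) : S.ShortExact := by
  have i1 : ∀ U, Mono (S.f.app U) := fun U => (ModuleCat.mono_iff_injective _).2 (h1 U)
  have i3 : ∀ U, Epi (S.g.app U) := fun U => (ModuleCat.epi_iff_surjective _).2 (h3 U)
  exact { exact := exact_of_val S h
          mono_f := NatTrans.mono_of_mono_app _
          epi_g := NatTrans.epi_of_epi_app _ }

end Zs98

open Zs98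

/-- Row ZS. -/
theorem zs : ZsStatement.{u} := by
  intro k _ Γ _ B _ P W hW
  refine ⟨fun M => ?_, fun S hS => ?_⟩
  · refine ⟨?_, se_of_val _ ?_ ?_ ?_⟩
    · refine NatTrans.ext (funext fun U => ModuleCat.hom_ext (LinearMap.ext fun x => ?_))
      refine funext fun h => ?_
      exact x.2 h.down
    · intro U x y hxy
      exact Subtype.ext hxy
    · intro U x hx
      refine ⟨⟨x, fun h => ?_⟩, rfl⟩
      exact congrFun hx ⟨h⟩
    · intro U y
      by_cases h : U.unop.pt ∈ W
      · exact ⟨y ⟨h⟩, rfl⟩
      · exact ⟨0, funext fun h' => absurd h'.down h⟩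
  · refine ⟨?_, se_of_val _ ?_ ?_ ?_⟩
    · rw [← Functor.map_comp, S.zero]
      refine NatTrans.ext (funext fun U => ModuleCat.hom_ext (LinearMap.ext fun x => ?_))
      rfl
    · intro U x y hxy
      have i1 := hS.mono_f
      refine funext fun h => ?_
      have h1 : Function.Injective (S.f.app (op (Bx.of ⟨U.unop.pt, h.down⟩))).hom :=
        (ModuleCat.mono_iff_injective (S.f.app (op (Bx.of ⟨U.unop.pt, h.down⟩)))).1 inferInstance
      exact h1 (congrFun hxy h)
    · intro U x hx
      have h1 : ∀ h : PLift (U.unop.pt ∈ W), ∃ y,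
          (S.f.app (op (Bx.of ⟨U.unop.pt, h.down⟩))).hom y = x h := by
        intro h
        have h2 := hS.map_of_exact ((evaluation (Bx (sub P W))ᵒᵖ (ModuleCat.{u} k)).obj
          (op (Bx.of ⟨U.unop.pt, h.down⟩)))
        exact (ShortComplex.moduleCat_exact_iff _).1 h2.exact (x h) (congrFun hx h)
      choose y hy using h1
      exact ⟨y, funext hy⟩
    · intro U x
      have i3 := hS.epi_g
      have h1 : ∀ h : PLift (U.unop.pt ∈ W), ∃ y,
          (S.g.app (op (Bx.of ⟨U.unop.pt, h.down⟩))).hom y = x h := fun h =>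
        (ModuleCat.epi_iff_surjective (S.g.app (op (Bx.of ⟨U.unop.pt, h.down⟩)))).1
          inferInstance (x h)
      choose y hy using h1
      exact ⟨y, funext hy⟩

end Pool.Agent.NegK.NT.ER
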