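import Pool.Agent.Lib.MP_28303a_al.NT.ER.Defs

/-! # Row VE: the vertex part of the functor of a located module -/

set_option autoImplicit false
set_option linter.unusedSectionVars false
set_option linter.unusedVariables false

namespace Pool.Agent.NegK.NT.ER

universe u

open CategoryTheory Limits Opposite
open Pool.Agent.NegK.TW

namespace Ve98

/-- Induction on the elements which live on `U`. -/
theorem evS_induction {k : Type u} [Ring k] {Γ : Type u} [Group Γ] {B : Type u} [MulAction Γ B]
    {P : Pre Γ B} (A : Loc k P) (U : B) {p : A.F → Prop} (h0 : p 0)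
    (hadd : ∀ x y, p x → p y → p (x + y))
    (hs : ∀ i g r, P.le U (g • A.loc i) →
      p (Finsupp.single i (MonoidAlgebra.single g r : MonoidAlgebra k Γ))) :
    ∀ x ∈ A.evS U, p x := by
  classical
  intro x hx
  have h1 : x = x.sum fun i a => a.coeff.sum fun g r =>
      Finsupp.single i (MonoidAlgebra.single g r : MonoidAlgebra k Γ) := by
    conv_lhs => rw [← x.sum_single]
    refine Finsupp.sum_congr fun i _ => ?_
    have h2 : (x i) = (x i).coeff.sum fun g r =>
      (MonoidAlgebra.single g r : MonoidAlgebra k Γ) :=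
      (MonoidAlgebra.sum_coeff_single (x i)).symm
    conv_lhs => rw [h2]
    rw [Finsupp.sum, Finsupp.single_finsetSum, Finsupp.sum]
  rw [h1, Finsupp.sum]
  refine Finset.sum_induction _ p hadd h0 fun i _ => ?_
  rw [Finsupp.sum]
  refine Finset.sum_induction _ p hadd h0 fun g hg => ?_
  exact hs i g _ (hx i g (Finsupp.mem_support_iff.1 hg))

variable {Γ : Type u} [Group Γ] {T : Sys Γ} {D : T.Tr} {j : Fin T.m} [MulAction Γ (D.V j)]
  [MulAction Γ (D.E j)] (K : Mk D j) {k : Type u} [Ring k]

variable (D j) in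
/-- The located module of the vertices below the locations. -/
noncomputable def vl (A : Loc k (T.P Finset.univ)) : Loc k (T.P Finset.univ) where
  ι := {p : A.ι × D.V j // D.vt j p.2 ≤ A.loc p.1 j}
  loc p := T.up j (A.loc p.1.1) (D.vt j p.1.2)

include K in
theorem vl_fin (A : Loc k (T.P Finset.univ)) (hA : Finite A.ι) : Finite (vl D j A).ι := by
  have h1 : ∀ i : A.ι, Finite {v : D.V j // D.vt j v ≤ A.loc i j} := by
    intro i
    have h2 : Finite {y | y ≤ A.loc i j} := (K.fin j (A.loc i j)).to_subtype
    refine Finite.of_injective (fun v : {v : D.V j // D.vt j v ≤ A.loc i j} =>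
      (⟨D.vt j v.1, v.2⟩ : {y | y ≤ A.loc i j})) ?_
    intro v w h
    exact Subtype.ext (K.vt_inj (congrArg Subtype.val h))
  refine Finite.of_injective (fun p : (vl D j A).ι =>
    (⟨p.1.1, p.1.2, p.2⟩ : Σ i : A.ι, {v : D.V j // D.vt j v ≤ A.loc i j})) ?_
  rintro ⟨⟨i, v⟩, h⟩ ⟨⟨i', v'⟩, h'⟩ hpq
  simp only [Sigma.mk.injEq] at hpq
  obtain ⟨rfl, h2⟩ := hpq
  simp only [heq_eq_eq, Subtype.mk.injEq] at h2
  subst h2
  rfl

theorem vl_le (A : Loc k (T.P Finset.univ)) (p : (vl D j A).ι) :
    (T.P Finset.univ).le ((vl D j A).loc p) (A.loc p.1.1) := by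
  intro i _
  show Function.update (A.loc p.1.1) j _ i ≤ A.loc p.1.1 i
  by_cases hi : i = j
  · subst hi
    rw [Function.update_self]
    exact p.2
  · rw [Function.update_of_ne hi]

/-- The map to the located module. -/
noncomputable def pr (A : Loc k (T.P Finset.univ)) : vl D j A ⟶ A :=
  Loc.par (A := vl D j A) (A' := A) (fun p => some p.1.1) (by
    rintro p i h
    cases h
    exact vl_le A p)

theorem pr_single (A : Loc k (T.P Finset.univ)) (p : (vl D j A).ι) :
    Loc.lin (pr A) (Finsupp.single p 1) = Finsupp.single p.1.1 1 :=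
  Loc.par_some (A := vl D j A) (A' := A) _ _ rfl

include K in
theorem le_vl (A : Loc k (T.P Finset.univ)) {U : T.Box} {p : (vl D j A).ι} {g : Γ}
    (h : (T.P Finset.univ).le U (g • (vl D j A).loc p)) : U j = D.vt j (g • p.1.2) := by
  have h1 := h j (Finset.mem_univ j)
  have h2 : (g • (vl D j A).loc p) j = D.vt j (g • p.1.2) := by
    rw [K.vt_smul]
    show g • (Function.update (A.loc p.1.1) j (D.vt j p.1.2) j) = _
    rw [Function.update_self]
  rw [h2] at h1
  exact K.vt_min _ _ h1

include K in
theorem pr_inj (A : Loc k (T.P Finset.univ)) {U : T.Box} {x : (vl D j A).F}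
    (hx : x ∈ (vl D j A).evS U) (h0 : Loc.lin (pr A) x = 0) : x = 0 := by
  classical
  refine Finsupp.ext fun p => ?_
  rw [Finsupp.zero_apply]
  ext g
  by_contra hc
  have hc' : (x p).coeff g ≠ 0 := hc
  have h1 := le_vl K A (hx p g hc')
  have h2 : (Loc.lin (pr A) x p.1.1).coeff g = (x p).coeff g := by
    rw [Loc.map_apply, Finsupp.sum, MonoidAlgebra.coeff_sum, Finset.sum_apply',
      Finset.sum_eq_single p]
    · rw [pr_single, Finsupp.single_eq_same, mul_one]
    · intro q _ hq
      rw [pr_single, Finsupp.single_apply]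
      split_ifs with hqp
      · rw [mul_one]
        by_contra hq'
        have h3 := le_vl K A (hx q g hq')
        rw [h1] at h3
        have h4 := smul_left_cancel g (K.vt_inj h3)
        exact hq (Subtype.ext (Prod.ext hqp h4.symm))
      · rw [mul_zero]
        rfl
    · intro hp
      rw [Finsupp.notMem_support_iff.1 hp, zero_mul]
      rfl
  rw [h0] at h2
  exact hc' h2.symm

include K in
theorem pr_surj (A : Loc k (T.P Finset.univ)) {U : T.Box} {v : D.V j} (hU : U j = D.vt j v)
    {x : A.F} (hx : x ∈ A.evS U) : ∃ y ∈ (vl D j A).evS U, Loc.lin (pr A) y = x := by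
  classical
  refine evS_induction A U (p := fun x => ∃ y ∈ (vl D j A).evS U, Loc.lin (pr A) y = x)
    ⟨0, Submodule.zero_mem _, map_zero _⟩ ?_ ?_ x hx
  · rintro x x' ⟨y, hy, rfl⟩ ⟨y', hy', rfl⟩
    exact ⟨y + y', Submodule.add_mem _ hy hy', map_add _ _ _⟩
  · intro i g r hi
    have h1 : D.vt j (g⁻¹ • v) ≤ A.loc i j := by
      have h2 := (T.P Finset.univ).smul g⁻¹ hi j (Finset.mem_univ j)
      rw [inv_smul_smul] at h2
      have h3 : (g⁻¹ • U) j = D.vt j (g⁻¹ • v) := by
        rw [K.vt_smul, ← hU]
        rfl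
      rwa [h3] at h2
    let p : (vl D j A).ι := ⟨(i, g⁻¹ • v), h1⟩
    refine ⟨Finsupp.single p (MonoidAlgebra.single g r), ?_, ?_⟩
    · intro q l hl
      rw [Finsupp.single_apply] at hl
      split_ifs at hl with hq
      · subst hq
        rw [MonoidAlgebra.coeff_single, Finsupp.single_apply] at hl
        split_ifs at hl with hg
        · subst hg
          intro c _
          show U c ≤ g • (Function.update (A.loc i) j (D.vt j (g⁻¹ • v)) c)
          by_cases hc : c = j
          · subst hc
            rw [Function.update_self, ← K.vt_smul, smul_inv_smul, hU]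
          · rw [Function.update_of_ne hc]
            exact hi c (Finset.mem_univ c)
        · exact absurd rfl hl
      · exact absurd rfl hl
    · have h4 : Finsupp.single p (MonoidAlgebra.single g r : MonoidAlgebra k Γ) =
          (MonoidAlgebra.single g r : MonoidAlgebra k Γ) • Finsupp.single p 1 := by
        rw [Finsupp.smul_single, smul_eq_mul, mul_one]
      rw [h4, map_smul, pr_single, Finsupp.smul_single, smul_eq_mul, mul_one]

include K in
theorem zero_of_nv (A : Loc k (T.P Finset.univ)) {U : T.Box} (hU : U ∈ nv K)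
    {x : (vl D j A).F} (hx : x ∈ (vl D j A).evS U) : x = 0 := by
  refine Finsupp.ext fun p => ?_
  rw [Finsupp.zero_apply]
  ext g
  by_contra hc
  exact hU _ (le_vl K A (hx p g hc))

/-- The map to the vertex part. -/
noncomputable def psi (A : Loc k (T.P Finset.univ)) :
    Loc.ev.obj (vl D j A) ⟶ vp (up_nv K) (Loc.ev.obj A) where
  app U := ModuleCat.ofHom
    { toFun := fun x => ⟨((Loc.ev.map (pr A)).app U).hom x, fun h => by
        have h1 : (x : (vl D j A).evS U.unop.pt) = 0 := Subtype.ext (zero_of_nv K A h x.2)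
        rw [h1]
        exact map_zero ((Loc.ev.map (pr A)).app U).hom⟩
      map_add' := fun x y => Subtype.ext (map_add ((Loc.ev.map (pr A)).app U).hom x y)
      map_smul' := fun c x => Subtype.ext (map_smul ((Loc.ev.map (pr A)).app U).hom c x) }
  naturality U V f := by
    refine ModuleCat.hom_ext (LinearMap.ext fun x => Subtype.ext ?_)
    exact congrArg (fun w => ModuleCat.Hom.hom w x) ((Loc.ev.map (pr A)).naturality f)

theorem psi_bij (A : Loc k (T.P Finset.univ)) (U : (Bx (T.P Finset.univ))ᵒᵖ) :
    Function.Bijective ((psi K A).app U).hom := by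
  constructor
  · rw [injective_iff_map_eq_zero]
    intro x hx
    have h1 : Loc.lin (pr A) (x : (vl D j A).evS U.unop.pt).1 = 0 :=
      congrArg (fun z => (z.1 : A.evS U.unop.pt).1) hx
    exact Subtype.ext (pr_inj K A (x : (vl D j A).evS U.unop.pt).2 h1)
  · intro y
    by_cases h : U.unop.pt ∈ nv K
    · refine ⟨0, ?_⟩
      rw [map_zero]
      exact Subtype.ext (y.2 h).symm
    · have h1 : ∃ v, U.unop.pt j = D.vt j v := by
        by_contra hc
        push Not at hc
        exact h hc
      obtain ⟨v, hv⟩ := h1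
      obtain ⟨x, hx, hxy⟩ := pr_surj K A hv (y.1 : A.evS U.unop.pt).2
      exact ⟨(⟨x, hx⟩ : (vl D j A).evS U.unop.pt), Subtype.ext (Subtype.ext hxy)⟩

end Ve98

open Ve98

/-- Row VE. -/
theorem ve : VeStatement.{u} := by
  intro Γ _ T D j _ _ K k _ A hA
  refine ⟨vl D j A, vl_fin K A hA, ?_⟩
  have h1 : ∀ U, IsIso ((psi K A).app U) := fun U =>
    (ConcreteCategory.isIso_iff_bijective _).2 (psi_bij K A U)
  have h2 : IsIso (psi K A) := NatIso.isIso_of_isIso_app _
  exact ⟨(asIso (psi K A)).symm⟩

end Pool.Agent.NegK.NT.ER
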